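import Pool.Agent.N932.FL.IsPair

/-!
The path of the O(1) model on the honeycomb lattice (`n = 1`), for all `0 < x ≤ 1`, in an arbitrary
finite domain, between two arbitrary points: the domain left free by the rest of the path has no
bottleneck, for all parts of the path at once.
-/

set_option autoImplicit false

namespace Pool.Agent.Results.MP_4960b8_pr.IsingPathNoBottleneck

open scoped Classical

/-- Adjacency in the honeycomb lattice (brick-wall coordinates). -/
def Nbr (p q : ℤ × ℤ) : Prop :=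
  (p.2 = q.2 ∧ (p.1 - q.1 = 1 ∨ q.1 - p.1 = 1)) ∨
    (p.1 = q.1 ∧ ((q.2 = p.2 + 1 ∧ Even (p.1 + p.2)) ∨ (p.2 = q.2 + 1 ∧ Even (q.1 + q.2))))

/-- The self-avoiding trajectories from `a` to `b` in `D`, as lists of vertices. -/
def Traj (D : Set (ℤ × ℤ)) (a b : ℤ × ℤ) : Set (List (ℤ × ℤ)) :=
  {l | l.head? = some a ∧ l.getLast? = some b ∧ l.Nodup ∧ l.IsChain Nbr ∧ ∀ p ∈ l, p ∈ D}

/-- The number of steps of a trajectory. -/
def steps (l : List (ℤ × ℤ)) : ℕ := l.length - 1

/-- The edges with both end points in `D`. -/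
def Edges (D : Set (ℤ × ℤ)) : Set (Sym2 (ℤ × ℤ)) :=
  {e | ∃ u v, u ∈ D ∧ v ∈ D ∧ Nbr u v ∧ e = s(u, v)}

/-- The degree of the vertex `v` in the set `ω` of edges. -/
noncomputable def deg (ω : Finset (Sym2 (ℤ × ℤ))) (v : ℤ × ℤ) : ℕ :=
  (ω.filter (fun e => v ∈ e)).card

/-- The loop configurations in `D`: the sets of edges in which every vertex has degree `0` or
`2`. -/
def Loops (D : Set (ℤ × ℤ)) : Set (Finset (Sym2 (ℤ × ℤ))) :=
  {ω | (∀ e ∈ ω, e ∈ Edges D) ∧ ∀ v, deg ω v = 0 ∨ deg ω v = 2}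

/-- The partition function of the loops in `D`. -/
noncomputable def Zl (x : ℝ) (D : Set (ℤ × ℤ)) : ℝ := ∑ᶠ ω ∈ Loops D, x ^ ω.card

/-- The total weight `x ^ L` of the configurations which consist of the path `γ` and loops which
avoid it, with `L` edges in total. -/
noncomputable def weight (x : ℝ) (D : Set (ℤ × ℤ)) (γ : List (ℤ × ℤ)) : ℝ :=
  x ^ steps γ * Zl x {v | v ∈ D ∧ v ∉ γ}

/-- The partition function of the O(1) model with a path from `a` to `b`. -/
noncomputable def Z (x : ℝ) (D : Set (ℤ × ℤ)) (a b : ℤ × ℤ) : ℝ := ∑ᶠ γ ∈ Traj D a b, weight x D γ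

/-- The probability of `E` for the path of the O(1) model in `D` from `a` to `b`. -/
noncomputable def P (x : ℝ) (D : Set (ℤ × ℤ)) (a b : ℤ × ℤ) (E : Set (List (ℤ × ℤ))) : ℝ :=
  (∑ᶠ γ ∈ Traj D a b ∩ E, weight x D γ) / Z x D a b

/-- The two-point function: the partition function with a path from `a` to `b` divided by the
partition function of the loops. -/
noncomputable def G (x : ℝ) (D : Set (ℤ × ℤ)) (a b : ℤ × ℤ) : ℝ := Z x D a b / Zl x D

/-- The list `p m₁ p₁ … mₖ pₖ`, if `M = [(m₁, p₁), …, (mₖ, pₖ)]`. -/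
def glue (p : List (ℤ × ℤ)) : List (List (ℤ × ℤ) × List (ℤ × ℤ)) → List (ℤ × ℤ)
  | [] => p
  | s :: M => p ++ s.1 ++ glue s.2 M

/-- The first vertex of `mᵢ`, the last vertex of `mᵢ`, and `pᵢ`. -/
def key (M : List (List (ℤ × ℤ) × List (ℤ × ℤ))) :
    List (Option (ℤ × ℤ) × Option (ℤ × ℤ) × List (ℤ × ℤ)) :=
  M.map (fun s => (s.1.head?, s.1.getLast?, s.2))

/-- The trajectories `p m₁' p₁ … mₖ' pₖ` such that `mᵢ'` begins and ends like `mᵢ`, for all `i`. -/
def Others (p : List (ℤ × ℤ)) (M : List (List (ℤ × ℤ) × List (ℤ × ℤ))) : Set (List (ℤ × ℤ)) :=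
  {l | ∃ M', key M' = key M ∧ l = glue p M'}

/-- The number of the steps of the pieces `mᵢ`. -/
def inner (M : List (List (ℤ × ℤ) × List (ℤ × ℤ))) : ℕ := (M.map (fun s => steps s.1)).sum

/-- The vertices of `D` which are in none of `p`, `p₁`, …, `pₖ`. -/
def out (D : Set (ℤ × ℤ)) (p : List (ℤ × ℤ)) (M : List (List (ℤ × ℤ) × List (ℤ × ℤ))) :
    Set (ℤ × ℤ) := {v | v ∈ D ∧ v ∉ p ∧ ∀ s ∈ M, v ∉ s.2}

/-- The vertices of `D` which are not in `p` and not in `q`. -/
def rem (D : Set (ℤ × ℤ)) (p q : List (ℤ × ℤ)) : Set (ℤ × ℤ) := {v | v ∈ D ∧ v ∉ p ∧ v ∉ q}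

theorem nbr_symm (p q : ℤ × ℤ) (h : Nbr p q) : Nbr q p := by
  rcases h with ⟨h1, h2 | h2⟩ | ⟨h1, ⟨h2, h3⟩ | ⟨h2, h3⟩⟩
  · exact Or.inl ⟨h1.symm, Or.inr h2⟩
  · exact Or.inl ⟨h1.symm, Or.inl h2⟩
  · exact Or.inr ⟨h1.symm, Or.inr ⟨h2, h3⟩⟩
  · exact Or.inr ⟨h1.symm, Or.inl ⟨h2, h3⟩⟩

theorem deg_le {D : Set (ℤ × ℤ)} {ω : Finset (Sym2 (ℤ × ℤ))} (h : ∀ e ∈ ω, e ∈ Edges D)
    (v : ℤ × ℤ) : deg ω v ≤ 3 := by
  obtain ⟨w, hw⟩ : ∃ w : ℤ × ℤ, ∀ z, Nbr v z → z = (v.1 + 1, v.2) ∨ z = (v.1 - 1, v.2) ∨ z = w := by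
    by_cases hv : Even (v.1 + v.2)
    · refine ⟨(v.1, v.2 + 1), fun z hz => ?_⟩
      rcases hz with ⟨h1, h2 | h2⟩ | ⟨h1, ⟨h2, h3⟩ | ⟨h2, h3⟩⟩
      · right; left; ext <;> simp <;> omega
      · left; ext <;> simp <;> omega
      · right; right; ext <;> simp <;> omega
      · exfalso
        rw [← h1] at h3
        have : v.1 + v.2 = v.1 + z.2 + 1 := by omega
        rw [this] at hv
        exact (Int.even_add_one.1 hv) h3
    · refine ⟨(v.1, v.2 - 1), fun z hz => ?_⟩
      rcases hz with ⟨h1, h2 | h2⟩ | ⟨h1, ⟨h2, h3⟩ | ⟨h2, h3⟩⟩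
      · right; left; ext <;> simp <;> omega
      · left; ext <;> simp <;> omega
      · exact absurd h3 hv
      · right; right; ext <;> simp <;> omega
  have hsub : ω.filter (fun e => v ∈ e) ⊆
      {s(v, (v.1 + 1, v.2)), s(v, (v.1 - 1, v.2)), s(v, w)} := by
    intro e he
    rw [Finset.mem_filter] at he
    obtain ⟨u, z, -, -, h1, rfl⟩ := h e he.1
    simp only [Finset.mem_insert, Finset.mem_singleton]
    rcases Sym2.mem_iff.1 he.2 with h2 | h2
    · subst h2
      rcases hw z h1 with h3 | h3 | h3 <;> rw [h3] <;> simp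
    · subst h2
      rw [Sym2.eq_swap]
      rcases hw u (nbr_symm _ _ h1) with h3 | h3 | h3 <;> rw [h3] <;> simp
  exact (Finset.card_le_card hsub).trans Finset.card_le_three

theorem loops_eq (D : Set (ℤ × ℤ)) : Loops D = Pool.Agent.N932.FL.cfg Nbr D ∅ := by
  ext ω
  unfold Loops Pool.Agent.N932.FL.cfg
  simp only [Set.mem_ofPred_eq, Set.mem_empty_iff_false, iff_false, Nat.not_odd_iff_even]
  refine and_congr_right (fun h => forall_congr' (fun v => ?_))
  have h1 := deg_le (D := D) h v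
  have h2 : Pool.Agent.N932.FL.dg ω v = deg ω v := by
    unfold Pool.Agent.N932.FL.dg deg
    congr
  rw [h2]
  constructor
  · rintro (h3 | h3) <;> rw [h3]
    · exact Even.zero
    · exact even_two
  · rintro ⟨k, hk⟩
    omega

/-- **Theorem.** Let `D` be a finite set of at least two vertices of the honeycomb lattice, `a` and
`b` connected in `D`, `0 < x ≤ 1` and `y` real. With probability at least `1 - 2 exp (-y)`, the path
`γ` from `a` to `b` of the O(1) model in `D` with parameter `x` satisfies: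

(1) for every `k` and every decomposition `γ = p m₁ p₁ … mₖ pₖ`, the probability that the path is
`p m₁' p₁ … mₖ' pₖ`, where `mᵢ'` has the end points of `mᵢ`, is at least
`exp (-y) |D| ^ (-4 (k + 1)) x ^ s Zl(D') / Zl(D)`, where `s` is the number of the steps of `γ`
which are not steps of the `mᵢ`, `D'` is the set of the vertices of `D` which are not in `p`, `p₁`,
…, `pₖ`, and `Zl` is the partition function of the loops;

(2) for every decomposition `γ = p m q`, where `m` goes from `u` to `v`, the two-point function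
between `u` and `v` in the remaining domain `D' = D \ (p ∪ q)` (for the model in `D'`, in which `m`
is the path from `u` to `v`, given `p` and `q`) is at least `exp (-y) |D| ^ (-2)` times the two-point
function between `a` and `b` in `D`. -/
theorem result (D : Set (ℤ × ℤ)) (hD : D.Finite) (hD2 : 2 ≤ D.ncard) (a b : ℤ × ℤ)
    (hab : (Traj D a b).Nonempty) (x : ℝ) (hx : 0 < x) (hx1 : x ≤ 1) (y : ℝ) :
    P x D a b {γ | ¬ (
      (∀ p M, γ = glue p M → (∀ s ∈ M, s.1 ≠ []) →
        Real.exp (-y) * (1 / (D.ncard : ℝ) ^ (4 * (M.length + 1))) * x ^ (steps γ - inner M) *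
          (Zl x (out D p M) / Zl x D) ≤ P x D a b (Others p M)) ∧
      (∀ p m q u v, γ = p ++ m ++ q → m.head? = some u → m.getLast? = some v →
        Real.exp (-y) / (D.ncard : ℝ) ^ 2 * G x D a b ≤ G x (rem D p q) u v))} ≤
      2 * Real.exp (-y) := by
  have hZl : ∀ D, Zl x D = Pool.Agent.N932.FL.CC Nbr x D ∅ := by
    intro D
    unfold Zl Pool.Agent.N932.FL.CC
    rw [loops_eq]
  have hw : ∀ D l, weight x D l = Pool.Agent.N932.FL.wt Nbr x D l := by
    intro D l
    unfold weight Pool.Agent.N932.FL.wt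
    rw [hZl]
    rfl
  have hT : ∀ (D : Set (ℤ × ℤ)) (a b : ℤ × ℤ), Traj D a b =
      Pool.Agent.N932.FL.trj Nbr D a b := fun _ _ _ => rfl
  have hglue : ∀ p M, glue p M = Pool.Agent.N932.FL.glue p M := by
    intro p M
    induction M generalizing p with
    | nil => rfl
    | cons s M ih =>
      show p ++ s.1 ++ glue s.2 M = p ++ s.1 ++ Pool.Agent.N932.FL.glue s.2 M
      rw [ih]
  have hoth : ∀ p M, Traj D a b ∩ Others p M =
      Pool.Agent.N932.FL.other Nbr D a b p M := by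
    intro p M
    unfold Others Pool.Agent.N932.FL.other
    ext l
    simp only [Set.mem_inter_iff, Set.mem_ofPred_eq, hT, hglue]
    rfl
  have hfin : (Traj D a b).Finite := Pool.Agent.N932.FL.trj_fin hD a b
  have hwpos : ∀ l, 0 < weight x D l := by
    intro l
    rw [hw]
    unfold Pool.Agent.N932.FL.wt
    have h1 := Pool.Agent.N932.FL.CC_pos (Adj := Nbr) hx.le
      (hD.subset (Pool.Agent.N932.FL.sdf_sub D l))
    have h2 : 0 < Pool.Agent.N932.FL.CC Nbr x (Pool.Agent.N932.FL.sdf D l) ∅ := by linarith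
    positivity
  have hZ : 0 < Z x D a b := by
    unfold Z
    rw [finsum_mem_eq_finite_toFinset_sum _ hfin]
    refine Finset.sum_pos (fun l _ => hwpos l) ?_
    rwa [Set.Finite.toFinset_nonempty]
  have h1 := Pool.Agent.N932.FL.is_multi (Adj := Nbr) hx hx1 hD hD2 a b (Z x D a b) hZ.le y
  have h2 := Pool.Agent.N932.FL.is_pair nbr_symm hx hx1 hD (by omega : 1 ≤ D.ncard) a b
    (Z x D a b) hZ.le y
  unfold P
  rw [div_le_iff₀ hZ]
  have hf : ∀ S : Set (List (ℤ × ℤ)), (Traj D a b ∩ S).Finite := fun S =>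
    hfin.subset Set.inter_subset_left
  refine le_trans ?_ ((add_le_add h1 h2).trans (le_of_eq (by ring)))
  simp only [← hT, ← hw]
  rw [finsum_mem_eq_finite_toFinset_sum _ (hf _), finsum_mem_eq_finite_toFinset_sum _ (hf _),
    finsum_mem_eq_finite_toFinset_sum _ (hf _), ← Finset.sum_union_inter]
  have hnn : ∀ S : Finset (List (ℤ × ℤ)), 0 ≤ ∑ l ∈ S, weight x D l := fun S =>
    Finset.sum_nonneg (fun l _ => (hwpos l).le)
  refine le_trans (Finset.sum_le_sum_of_subset_of_nonneg ?_ (fun l _ _ => (hwpos l).le))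
    (le_add_of_nonneg_right (hnn _))
  intro l hl
  rw [Set.Finite.mem_toFinset] at hl
  rw [Finset.mem_union, Set.Finite.mem_toFinset, Set.Finite.mem_toFinset]
  obtain ⟨h3, h4⟩ := hl
  by_contra hcon
  push Not at hcon
  obtain ⟨h5, h6⟩ := hcon
  apply h4
  refine ⟨fun p M h7 h8 => ?_, fun p m q u v h7 h8 h9 => ?_⟩
  · by_contra h9
    apply h5
    refine ⟨h3, p, M, by rw [← hglue]; exact h7, h8, ?_⟩
    push Not at h9
    rw [div_lt_iff₀ hZ] at h9
    rw [hoth] at h9
    simp only [hZl] at h9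
    exact h9.le
  · by_contra h10
    apply h6
    refine ⟨h3, p, m, q, u, v, h7, h8, h9, ?_⟩
    push Not at h10
    unfold G at h10
    simp only [hZl] at h10
    exact h10.le

end Pool.Agent.Results.MP_4960b8_pr.IsingPathNoBottleneck
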