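import Pool.Agent.N949.AD.Fin

/-!
The path of the O(0) loop model (self-avoiding walk on the honeycomb lattice) between two boundary or
interior points of a domain, at the critical point and slightly above it: the joint law of its length
and of the area to one side of it is a mixture of laws of sums of independent binomial random
variables.
-/

set_option autoImplicit false

namespace Pool.Agent.Results.MP_4960b8_pr.LengthAndArea

/-- Adjacency in the honeycomb lattice (brick-wall coordinates, as in the frozen statement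
S19575). -/
def Nbr (p q : ℤ × ℤ) : Prop :=
  (p.2 = q.2 ∧ (p.1 - q.1 = 1 ∨ q.1 - p.1 = 1)) ∨
    (p.1 = q.1 ∧ ((q.2 = p.2 + 1 ∧ Even (p.1 + p.2)) ∨ (p.2 = q.2 + 1 ∧ Even (q.1 + q.2))))

/-- The self-avoiding trajectories from `a` to `b` in `D`, as lists of vertices. -/
def Traj (D : Set (ℤ × ℤ)) (a b : ℤ × ℤ) : Set (List (ℤ × ℤ)) :=
  {l | l.head? = some a ∧ l.getLast? = some b ∧ l.Nodup ∧ l.IsChain Nbr ∧ ∀ p ∈ l, p ∈ D}

/-- The critical fugacity `1 / μ`. -/
noncomputable def xc : ℝ := 1 / Real.sqrt (2 + Real.sqrt 2)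

/-- The number of steps of a trajectory. -/
def steps (l : List (ℤ × ℤ)) : ℕ := l.length - 1

/-- The partition function with fugacity `x` (a finite sum if `D` is bounded). -/
noncomputable def Z (x : ℝ) (D : Set (ℤ × ℤ)) (a b : ℤ × ℤ) : ℝ :=
  ∑ᶠ l ∈ Traj D a b, x ^ steps l

/-- The mean of `f` for the self-avoiding walk in `D` from `a` to `b` with fugacity `x`. -/
noncomputable def E (x : ℝ) (D : Set (ℤ × ℤ)) (a b : ℤ × ℤ) (f : List (ℤ × ℤ) → ℝ) : ℝ :=
  (∑ᶠ l ∈ Traj D a b, x ^ steps l * f l) / Z x D a b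

/-- The position of the vertices in the plane: the honeycomb lattice with unit edge length (`Nbr p q`
if and only if the points `emb p` and `emb q` have distance `1`). -/
noncomputable def emb (v : ℤ × ℤ) : ℂ :=
  ⟨Real.sqrt 3 / 2 * v.1, 3 / 2 * v.2 + if Even (v.1 + v.2) then 1 / 2 else 0⟩

/-- The coordinate in the direction `u = exp (- i π / 6)`, one of the directions of the edges. -/
noncomputable def lv (z : ℂ) : ℝ := (Real.sqrt 3 * z.re - z.im) / 2

/-- The open half-disc with centre `a` and radius `r` on the side `ε u` of `a` (`ε = 1` or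
`ε = -1`). -/
def HD (a : ℂ) (ε r : ℝ) : Set ℂ := {z | ‖z - a‖ < r ∧ 0 < ε * (lv z - lv a)}

/-- The vertices in the half-disc (with its diameter) with centre `δ p` and radius `r`, on the
side `ε u` of `p`, for the lattice with mesh `δ`. -/
def Hd (δ ε r : ℝ) (p : ℤ × ℤ) : Set (ℤ × ℤ) :=
  {v | ‖(δ : ℂ) * emb v - δ * emb p‖ < r ∧ 0 ≤ ε * (lv (emb v) - lv (emb p))}

/-- `p` is the lattice point with an edge in the direction `- ε u`: a boundary vertex of a half-plane
on the side `ε u`. -/
def Bd (ε : ℝ) (p : ℤ × ℤ) : Prop :=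
  (ε = 1 ∧ Odd (p.1 + p.2)) ∨ (ε = -1 ∧ Even (p.1 + p.2))

/-- Every vertex outside of `D` has two different neighbours outside of `D`. -/
def Closed (D : Set (ℤ × ℤ)) : Prop :=
  ∀ v, v ∉ D → ∃ u u', u ≠ u' ∧ Nbr v u ∧ Nbr v u' ∧ u ∉ D ∧ u' ∉ D

/-- The function `F` of the trajectory does not change when three consecutive vertices of the
trajectory are replaced by five and none of these eight vertices is in `V`. -/
def Unchanged (D : Set (ℤ × ℤ)) (a b : ℤ × ℤ) (V : Finset (ℤ × ℤ)) (F : List (ℤ × ℤ) → ℝ) :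
    Prop :=
  ∀ L U U' R : List (ℤ × ℤ), U.length = 3 → U'.length = 5 → (∀ v ∈ U ++ U', v ∉ V) →
    L ++ U ++ R ∈ Traj D a b → L ++ U' ++ R ∈ Traj D a b → F (L ++ U' ++ R) = F (L ++ U ++ R)

/-- `∫ x dy` along a trajectory, in brick-wall coordinates, where every hexagon has area `2`: the
difference for two trajectories with the same ends is twice the signed number of the hexagons between
them. -/
def area : List (ℤ × ℤ) → ℤ
  | [] => 0
  | [_] => 0
  | a :: b :: t => a.1 * (b.2 - a.2) + area (b :: t)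

/-- The mean value of `h (2 (B + B'), 2 (B - B'))` for independent binomial random variables `B` with
parameters `N`, `y / (1 + y)` and `B'` with parameters `M`, `y / (1 + y)`. -/
noncomputable def binMean (y : ℝ) (N M : ℕ) (h : ℤ × ℤ → ℝ) : ℝ :=
  (∑ j ∈ Finset.range (N + 1), ∑ i ∈ Finset.range (M + 1),
    ((N.choose j : ℝ) * (M.choose i : ℝ) * y ^ (j + i)) *
      h (2 * ((j : ℤ) + i), 2 * ((j : ℤ) - i))) / (1 + y) ^ (N + M)

theorem area_eq : ∀ l : List (ℤ × ℤ), area l = Pool.Agent.N949.AD.ar l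
  | [] => rfl
  | [_] => rfl
  | a :: b :: t => by
    have h := area_eq (b :: t)
    show a.1 * (b.2 - a.2) + area (b :: t) = a.1 * (b.2 - a.2) + Pool.Agent.N949.AD.ar (b :: t)
    rw [h]

/-- **Theorem.** Let `W` be a connected open set of the plane, `a ≠ b` points such that `W` contains
a half-disc with centre `a` on the side `ε u` and a half-disc with centre `b` on the side `ε' u`
(for instance interior points of `W`, or boundary points at which the boundary is a segment
orthogonal to `u`), and `M` a real number.  There are a compact set `K` contained in `W`, `C ≥ 1`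
and `A : ℕ → ℝ` such that for every mesh `δ ≤ 1 / C`, every set `D` of vertices such that `δ D` lies
in the disc of radius `M`, all boundary vertices `p` and `q` with `δ p` and `δ q` at distance at most
`1 / C` of `a` and `b`, such that `D` contains the vertices of `K` and the half-discs of `p` and `q`,
the self-avoiding walk `γ` in `D` from `p` to `q` with weight `x ^ |γ|` has the following properties,
for `x = xc`, and for `xc ≤ x ≤ 0.544` if `D` is closed.  Its length `|γ|` is at least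
`1 / (C δ)`.  Let `V` be a set of at most `1 / (C δ)` vertices.  There are functions `u` and `N` of
the trajectory with values in `ℤ²` and `ℕ²` such that
(1) `N₁ + N₂ ≥ |γ| / C`, except with probability at most `C exp (- 1 / (C δ))`;
and for every function `F` of the trajectory which does not change when three consecutive vertices
of the trajectory are replaced by five, none of them in `V` (for example a function of the list of
the vertices of `V` which `γ` visits, in the order of the visits):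
(2) `E [F h(u, N, (|γ|, area γ))] = E [F h(u, N, u + (2 (B + B'), 2 (B - B')))]` for all functions `h`,
where, given `γ`, `B` and `B'` are independent and binomial with parameters `N₁`, `x² / (1 + x²)` and
`N₂`, `x² / (1 + x²)`.
If moreover `|F| ≤ 1`, then
(3) `|E [F cos (α |γ| + β area γ + φ)]| ≤ C (E [|F| exp (- m |γ| / C)] + exp (- 1 / (C δ)))` for all
real `α`, `β`, `φ`, where `m` is the minimum of `sin² (α + β)` and `sin² (α - β)`;
(4) `|E [F ∑ (-1)^i C(k,i) h (area γ + 2 i)]| ≤ A k (E [|F| (|γ| + 1)^(-k/2)] + exp (- 1 / (C δ)))`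
for all `k` and all functions `h` with `|h| ≤ 1` (`i` runs from `0` to `k`). -/
theorem result (W : Set ℂ) (hW : IsOpen W) (hc : IsConnected W) (a b : ℂ) (hab : a ≠ b)
    (ε ε' : ℝ) (hε : ε = 1 ∨ ε = -1) (hε' : ε' = 1 ∨ ε' = -1) (r : ℝ) (hr : 0 < r)
    (ha : HD a ε r ⊆ W) (hb : HD b ε' r ⊆ W) (M : ℝ) :
    ∃ K : Set ℂ, K ⊆ W ∧ IsCompact K ∧ ∃ C : ℝ, 1 ≤ C ∧ ∃ A : ℕ → ℝ,
      ∀ δ : ℝ, 0 < δ → C * δ ≤ 1 →
      ∀ (D : Set (ℤ × ℤ)) (p q : ℤ × ℤ), Bd ε p → Bd ε' q →
      C * ‖(δ : ℂ) * emb p - a‖ ≤ 1 → C * ‖(δ : ℂ) * emb q - b‖ ≤ 1 →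
      (∀ v : ℤ × ℤ, (δ : ℂ) * emb v ∈ K → v ∈ D) → Hd δ ε r p ⊆ D → Hd δ ε' r q ⊆ D →
      (∀ v ∈ D, ‖(δ : ℂ) * emb v‖ ≤ M) →
      ∀ x : ℝ, (x = xc ∨ (Closed D ∧ xc ≤ x ∧ x ≤ 544 / 1000)) →
      (Traj D p q).Finite ∧ 0 < Z x D p q ∧
      (∀ l ∈ Traj D p q, 1 ≤ C * δ * (steps l : ℝ)) ∧
      ∀ V : Finset (ℤ × ℤ), C * δ * V.card ≤ 1 →
      ∃ (u : List (ℤ × ℤ) → ℤ × ℤ) (N : List (ℤ × ℤ) → ℕ × ℕ),
        E x D p q (fun l => if C * (((N l).1 + (N l).2 : ℕ) : ℝ) < (steps l : ℝ) then 1 else 0) ≤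
          C * Real.exp (-(1 / (C * δ))) ∧
        ∀ F : List (ℤ × ℤ) → ℝ, Unchanged D p q V F →
        (∀ h : ℤ × ℤ → ℕ × ℕ → ℤ × ℤ → ℝ,
          E x D p q (fun l => F l * h (u l) (N l) ((steps l : ℤ), area l)) =
          E x D p q (fun l => F l * binMean (x ^ 2) (N l).1 (N l).2
            (fun z => h (u l) (N l) (u l + z)))) ∧
        ((∀ l ∈ Traj D p q, |F l| ≤ 1) →
          (∀ α β φ m : ℝ, 0 ≤ m → m ≤ Real.sin (α + β) ^ 2 → m ≤ Real.sin (α - β) ^ 2 →
            |E x D p q (fun l => F l *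
              Real.cos (α * (steps l : ℝ) + β * (area l : ℝ) + φ))| ≤
            C * (E x D p q (fun l => |F l| * Real.exp (-(m * (steps l : ℝ) / C))) +
              Real.exp (-(1 / (C * δ))))) ∧
          ∀ (k : ℕ) (h : ℤ → ℝ), (∀ n, |h n| ≤ 1) →
            |E x D p q (fun l => F l * ∑ i ∈ Finset.range (k + 1),
              (-1 : ℝ) ^ i * (k.choose i : ℝ) * h (area l + 2 * i))| ≤
            A k * (E x D p q (fun l => |F l| / Real.sqrt ((steps l : ℝ) + 1) ^ k) +
              Real.exp (-(1 / (C * δ))))) := by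
  obtain ⟨K, h1, h2, C, hC, A, h⟩ := Pool.Agent.N949.AD.fin W hW hc a b hab ε ε' hε hε' r hr
    ha hb M
  refine ⟨K, h1, h2, C, hC, A, ?_⟩
  intro δ hδ hCδ D p q hp hq hpa hqb hKD hpD hqD hDM x hx
  obtain ⟨g1, g2, g3, g4⟩ := h δ hδ hCδ D p q hp hq hpa hqb hKD hpD hqD hDM x hx
  refine ⟨g1, g2, g3, fun V hV => ?_⟩
  obtain ⟨u, N, g5, g6⟩ := g4 V hV
  refine ⟨u, N, ?_, fun F hU => ?_⟩
  · classical
    refine le_trans (le_of_eq ?_) g5
    congr 1
  obtain ⟨g7, g8⟩ := g6 F hU
  simp only [area_eq]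
  refine ⟨?_, fun hF => ?_⟩
  · intro h'
    have := g7 h'
    simp only [← mul_div_assoc] at this
    simp only [binMean, ← mul_div_assoc]
    exact this
  · exact g8 hF

end Pool.Agent.Results.MP_4960b8_pr.LengthAndArea
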