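import Pool.Agent.N929.EG.LenF

/-!
The path of the O(0) model on the honeycomb lattice in discrete domains, between two given points, at
the critical point `xc` and slightly above it: the law of the number `l` of steps of the path is smooth
to all orders, also jointly with what the path does at up to `1 / (C δ)` given vertices; in particular
its characteristic function decays faster than every power.
-/

set_option autoImplicit false

namespace Pool.Agent.Results.MP_4960b8_pr.LengthLawAllOrders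

/-- Adjacency in the honeycomb lattice (brick-wall coordinates). -/
def Nbr (p q : ℤ × ℤ) : Prop :=
  (p.2 = q.2 ∧ (p.1 - q.1 = 1 ∨ q.1 - p.1 = 1)) ∨
    (p.1 = q.1 ∧ ((q.2 = p.2 + 1 ∧ Even (p.1 + p.2)) ∨ (p.2 = q.2 + 1 ∧ Even (q.1 + q.2))))

/-- The self-avoiding trajectories from `a` to `b` in `D`, as lists of vertices. -/
def Traj (D : Set (ℤ × ℤ)) (a b : ℤ × ℤ) : Set (List (ℤ × ℤ)) :=
  {l | l.head? = some a ∧ l.getLast? = some b ∧ l.Nodup ∧ l.IsChain Nbr ∧ ∀ p ∈ l, p ∈ D}

/-- The critical point `xc(0) = 1 / √(2 + √2)`. -/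
noncomputable def xc : ℝ := 1 / Real.sqrt (2 + Real.sqrt 2)

/-- The number of steps of a path given by the list of its vertices. -/
def steps (l : List (ℤ × ℤ)) : ℕ := l.length - 1

/-- The partition function: the sum of `x ^ (number of steps)` over the trajectories. -/
noncomputable def Z (x : ℝ) (D : Set (ℤ × ℤ)) (a b : ℤ × ℤ) : ℝ :=
  ∑ᶠ l ∈ Traj D a b, x ^ steps l

/-- The mean value of `F` for the path of the O(0) model in `D` from `a` to `b`. -/
noncomputable def mean (x : ℝ) (D : Set (ℤ × ℤ)) (a b : ℤ × ℤ) (F : List (ℤ × ℤ) → ℝ) : ℝ :=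
  (∑ᶠ l ∈ Traj D a b, x ^ steps l * F l) / Z x D a b

/-- The mean value of `(l + 1) ^ (-r / 2)`, with `l` the number of steps. -/
noncomputable def inv (r : ℕ) (x : ℝ) (D : Set (ℤ × ℤ)) (a b : ℤ × ℤ) : ℝ :=
  mean x D a b (fun l => 1 / Real.sqrt ((steps l : ℝ) + 1) ^ r)

/-- The position of the vertices in the plane: the honeycomb lattice with unit edge length (`Nbr p q`
if and only if the points `emb p` and `emb q` have distance `1`). -/
noncomputable def emb (v : ℤ × ℤ) : ℂ :=
  ⟨Real.sqrt 3 / 2 * v.1, 3 / 2 * v.2 + if Even (v.1 + v.2) then 1 / 2 else 0⟩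

/-- The coordinate in the direction `u = exp (- i π / 6)`, one of the directions of the edges. -/
noncomputable def lv (z : ℂ) : ℝ := (Real.sqrt 3 * z.re - z.im) / 2

/-- The open half-disc with centre `a` and radius `r` on the side `ε u` of `a` (`ε = 1` or
`ε = -1`). -/
def HD (a : ℂ) (ε r : ℝ) : Set ℂ := {z | ‖z - a‖ < r ∧ 0 < ε * (lv z - lv a)}

/-- The vertices in the half-disc (with its diameter) with centre `δ p` and radius `r`, on the
side `ε u` of `p`, for the lattice with mesh `δ`. -/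
def Hd (δ ε r : ℝ) (p : ℤ × ℤ) : Set (ℤ × ℤ) :=
  {v | ‖(δ : ℂ) * emb v - δ * emb p‖ < r ∧ 0 ≤ ε * (lv (emb v) - lv (emb p))}

/-- `p` is the lattice point with an edge in the direction `- ε u`: a boundary vertex of a half-plane
on the side `ε u`. -/
def Bd (ε : ℝ) (p : ℤ × ℤ) : Prop :=
  (ε = 1 ∧ Odd (p.1 + p.2)) ∨ (ε = -1 ∧ Even (p.1 + p.2))

/-- Every vertex outside `D` has two neighbours outside `D` (for example: the complement of `D` is a
union of hexagons). -/
def Closed (D : Set (ℤ × ℤ)) : Prop :=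
  ∀ v, v ∉ D → ∃ u u', u ≠ u' ∧ Nbr v u ∧ Nbr v u' ∧ u ∉ D ∧ u' ∉ D

/-- `F` does not change when a piece of two steps of a trajectory is replaced by a piece of four
steps with the same end points and both pieces avoid the set `Q`. -/
def Invariant (D : Set (ℤ × ℤ)) (a b : ℤ × ℤ) (Q : Finset (ℤ × ℤ)) (F : List (ℤ × ℤ) → ℝ) : Prop :=
  ∀ L U U' R : List (ℤ × ℤ), U.length = 3 → U'.length = 5 → U.head? = U'.head? →
    U.getLast? = U'.getLast? → (∀ v ∈ U ++ U', v ∉ Q) → L ++ U ++ R ∈ Traj D a b →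
    L ++ U' ++ R ∈ Traj D a b → F (L ++ U' ++ R) = F (L ++ U ++ R)

open Pool.Agent.N929.EG (lenF)

theorem cos_diff (t s : ℝ) (r n : ℕ) :
    Pool.Agent.N929.EG.Seq.D 2 r (fun n => Real.cos (t * n + s)) n =
      (2 * Real.sin t) ^ r * Real.cos (t * n + (s + r * (t - Real.pi / 2))) := by
  induction r generalizing n with
  | zero => simp [Pool.Agent.N929.EG.Seq.D_zero]
  | succ r ih =>
    rw [Pool.Agent.N929.EG.Seq.D_succ, ih, ih, ← mul_sub, pow_succ, mul_assoc]
    congr 1
    obtain ⟨A, hA⟩ : ∃ A : ℝ, A = t * n + s + r * (t - Real.pi / 2) := ⟨_, rfl⟩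
    have e1 : t * (n : ℝ) + (s + r * (t - Real.pi / 2)) = A := by rw [hA]; ring
    have e2 : t * ((n + 2 : ℕ) : ℝ) + (s + r * (t - Real.pi / 2)) = A + 2 * t := by
      rw [hA]
      push_cast
      ring
    have e3 : t * (n : ℝ) + (s + ((r + 1 : ℕ) : ℝ) * (t - Real.pi / 2)) =
        (A + t) - Real.pi / 2 := by
      rw [hA]
      push_cast
      ring
    rw [e1, e2, e3, Real.cos_sub_pi_div_two, Real.cos_sub_cos]
    have e4 : (A + (A + 2 * t)) / 2 = A + t := by ring
    have e5 : (A - (A + 2 * t)) / 2 = -t := by ring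
    rw [e4, e5, Real.sin_neg]
    ring

/-- **Theorem.** Let `W` be a connected open set of the plane, `a ≠ b` points such that `W` contains
a half-disc with centre `a` on the side `ε u` and a half-disc with centre `b` on the side `ε' u`, and
`M` a real number.  There are a compact set `K` contained in `W` and `C ≥ 1`, and for every `r ≥ 0` a
constant `B`, such that for every mesh `δ ≤ 1 / C`, every closed set `D` of vertices such that `δ D`
lies in the disc of radius `M`, all vertices `p` and `q` with the parities of boundary vertices of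
half-planes on the sides `ε u` and `ε' u` and with `δ p` and `δ q` at distance at most `1 / C` of `a`
and `b`, such that `D` contains the vertices of `K` and the half-discs of `p` and `q`, and every `x`
with `xc ≤ x ≤ 0.544`, the path `γ` of the O(0) model with parameter `x` in `D` from `p` to `q`, with
`l` steps, satisfies: (0) `l ≥ 1 / (C δ)`; for every set `Q` of at most `1 / (C δ)` vertices and every
functional `F` of the path with values in `[0,1]` which is invariant under local changes outside `Q`: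
(1) `|∑_i (-1)^i (r choose i) E [F(γ) g(l + 2 i)]| ≤ B E [(l + 1)^(-r/2)]` for all functions `g` with
values in `[-1,1]`; (2) `|∑_i (-1)^i (r choose i) E [F(γ); l + 2 i = k]| ≤ B E [(l + 1)^(-(r+1)/2)]`
for all `k`; (3) `|2 sin t|^r |E [F(γ) cos (t l + s)]| ≤ B E [(l + 1)^(-r/2)]` for all real `t`
and `s`. -/
theorem result (W : Set ℂ) (hW : IsOpen W) (hc : IsConnected W) (a b : ℂ) (hab : a ≠ b)
    (ε ε' : ℝ) (hε : ε = 1 ∨ ε = -1) (hε' : ε' = 1 ∨ ε' = -1) (ρ : ℝ) (hρ : 0 < ρ)
    (ha : HD a ε ρ ⊆ W) (hb : HD b ε' ρ ⊆ W) (M : ℝ) :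
    ∃ K : Set ℂ, K ⊆ W ∧ IsCompact K ∧ ∃ C : ℝ, 1 ≤ C ∧ ∀ r : ℕ, ∃ B : ℝ,
      ∀ δ : ℝ, 0 < δ → C * δ ≤ 1 →
      ∀ (D : Set (ℤ × ℤ)) (p q : ℤ × ℤ), Bd ε p → Bd ε' q →
      C * ‖(δ : ℂ) * emb p - a‖ ≤ 1 → C * ‖(δ : ℂ) * emb q - b‖ ≤ 1 →
      (∀ v : ℤ × ℤ, (δ : ℂ) * emb v ∈ K → v ∈ D) → Hd δ ε ρ p ⊆ D → Hd δ ε' ρ q ⊆ D →
      (∀ v ∈ D, ‖(δ : ℂ) * emb v‖ ≤ M) → Closed D → ∀ x : ℝ, xc ≤ x → x ≤ 544 / 1000 →
      (Traj D p q).Finite ∧ 0 < Z x D p q ∧ (∀ l ∈ Traj D p q, 1 ≤ C * δ * (steps l : ℝ)) ∧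
      ∀ (Q : Finset (ℤ × ℤ)) (F : List (ℤ × ℤ) → ℝ), C * δ * Q.card ≤ 1 →
        (∀ l ∈ Traj D p q, 0 ≤ F l ∧ F l ≤ 1) → Invariant D p q Q F →
        (∀ g : ℕ → ℝ, (∀ n, |g n| ≤ 1) →
          |∑ i ∈ Finset.range (r + 1), (-1 : ℝ) ^ i * (r.choose i : ℝ) *
            mean x D p q (fun l => F l * g (steps l + 2 * i))| ≤ B * inv r x D p q) ∧
        (∀ k : ℕ, |∑ i ∈ Finset.range (r + 1), (-1 : ℝ) ^ i * (r.choose i : ℝ) *
            mean x D p q (fun l => F l * if steps l + 2 * i = k then 1 else 0)| ≤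
            B * inv (r + 1) x D p q) ∧
        ∀ t s : ℝ, |2 * Real.sin t| ^ r *
            |mean x D p q (fun l => F l * Real.cos (t * steps l + s))| ≤ B * inv r x D p q := by
  obtain ⟨K, hK, hKc, C, hC, h⟩ := lenF W hW hc a b hab ε ε' hε hε' ρ hρ ha hb M
  refine ⟨K, hK, hKc, C, hC, fun r => ?_⟩
  obtain ⟨B1, hB1, h1⟩ := h r
  obtain ⟨B2, hB2, h2⟩ := h (r + 1)
  refine ⟨max B1 B2, ?_⟩
  intro δ hδ hCδ D p q hp hq hpa hqb hKD hpD hqD hDM hcl x hx hx'
  obtain ⟨f1, f2, f3, f4⟩ := h1 δ hδ hCδ D p q hp hq hpa hqb hKD hpD hqD hDM hcl x hx hx'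
  obtain ⟨-, -, -, f5⟩ := h2 δ hδ hCδ D p q hp hq hpa hqb hKD hpD hqD hDM hcl x hx hx'
  refine ⟨f1, f2, f3, fun Q F hQ hF hI => ?_⟩
  have hx0 : 0 ≤ x := by
    refine le_trans ?_ hx
    unfold xc
    positivity
  have hmean : ∀ G : List (ℤ × ℤ) → ℝ, mean x D p q G =
      (∑ l ∈ f1.toFinset, x ^ steps l * G l) / ∑ l ∈ f1.toFinset, x ^ steps l := by
    intro G
    exact Pool.Agent.R131.LT.Mx_eq x f1 G
  have hinv : ∀ r, 0 ≤ inv r x D p q := by
    intro r
    unfold inv
    rw [hmean]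
    refine div_nonneg (Finset.sum_nonneg fun l _ => ?_) (Finset.sum_nonneg fun l _ => ?_) <;>
      positivity
  -- differences of the mean value
  have key : ∀ (r : ℕ) (g : ℕ → ℝ), ∑ i ∈ Finset.range (r + 1), (-1 : ℝ) ^ i * (r.choose i : ℝ) *
      mean x D p q (fun l => F l * g (steps l + 2 * i)) =
      mean x D p q (fun l => F l * Pool.Agent.N929.EG.Seq.D 2 r g (steps l)) := by
    intro r g
    simp only [hmean]
    simp_rw [← mul_div_assoc]
    rw [← Finset.sum_div]
    congr 1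
    unfold Pool.Agent.N929.EG.Seq.D
    simp_rw [Finset.mul_sum]
    rw [Finset.sum_comm]
    refine Finset.sum_congr rfl fun l _ => Finset.sum_congr rfl fun i _ => ?_
    ring
  have main1 : ∀ g : ℕ → ℝ, (∀ n, |g n| ≤ 1) →
      |mean x D p q (fun l => F l * Pool.Agent.N929.EG.Seq.D 2 r g (steps l))| ≤
        max B1 B2 * inv r x D p q := by
    intro g hg
    refine (f4 Q F g hQ hF hI hg).trans ?_
    exact mul_le_mul_of_nonneg_right (le_max_left _ _) (hinv r)
  have main2 : ∀ g : ℕ → ℝ, (∀ n, |g n| ≤ 1) →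
      |mean x D p q (fun l => F l * Pool.Agent.N929.EG.Seq.D 2 (r + 1) g (steps l))| ≤
        max B1 B2 * inv (r + 1) x D p q := by
    intro g hg
    refine (f5 Q F g hQ hF hI hg).trans ?_
    exact mul_le_mul_of_nonneg_right (le_max_right _ _) (hinv (r + 1))
  refine ⟨fun g hg => ?_, fun k => ?_, fun t s => ?_⟩
  · rw [key]
    exact main1 g hg
  · obtain ⟨g, hg⟩ : ∃ g : ℕ → ℝ, g = fun n => if k + 2 ≤ n ∧ n % 2 = k % 2 then (-1 : ℝ) else 0 :=
      ⟨_, rfl⟩
    have e1 : Pool.Agent.N929.EG.Seq.D 2 1 g = fun n => if n = k then (1 : ℝ) else 0 := by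
      funext n
      rw [Pool.Agent.N929.EG.Seq.D_one, hg]
      simp only
      by_cases h7 : n = k
      · subst h7
        rw [if_neg (by omega), if_pos (by omega), if_pos rfl]
        norm_num
      · rw [if_neg h7]
        by_cases h8 : k + 2 ≤ n ∧ n % 2 = k % 2
        · rw [if_pos h8, if_pos (by omega)]
          norm_num
        · rw [if_neg h8, if_neg (by omega)]
          norm_num
    have h3 := main2 g (fun n => by
      rw [hg]
      simp only
      split_ifs <;> norm_num)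
    have e2 : ∀ n, Pool.Agent.N929.EG.Seq.D 2 (r + 1) g n =
        Pool.Agent.N929.EG.Seq.D 2 r (fun n => if n = k then (1 : ℝ) else 0) n := by
      intro n
      rw [← e1, Pool.Agent.N929.EG.Seq.D_D]
    simp only [e2] at h3
    rw [← key] at h3
    exact h3
  · have h3 := main1 (fun n => Real.cos (t * n + (s - r * (t - Real.pi / 2))))
      (fun n => Real.abs_cos_le_one _)
    have e1 : ∀ l : List (ℤ × ℤ), F l * Pool.Agent.N929.EG.Seq.D 2 r
        (fun n => Real.cos (t * n + (s - r * (t - Real.pi / 2)))) (steps l) =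
        (2 * Real.sin t) ^ r * (F l * Real.cos (t * steps l + s)) := by
      intro l
      rw [cos_diff]
      have e2 : s - r * (t - Real.pi / 2) + r * (t - Real.pi / 2) = s := by ring
      rw [e2]
      ring
    have e2 : mean x D p q (fun l => (2 * Real.sin t) ^ r * (F l * Real.cos (t * steps l + s))) =
        (2 * Real.sin t) ^ r * mean x D p q (fun l => F l * Real.cos (t * steps l + s)) := by
      rw [hmean, hmean, ← mul_div_assoc, Finset.mul_sum]
      congr 1
      refine Finset.sum_congr rfl fun l _ => ?_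
      ring
    simp only [e1] at h3
    rw [e2, abs_mul, abs_pow] at h3
    exact h3

end Pool.Agent.Results.MP_4960b8_pr.LengthLawAllOrders
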