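import Pool.Agent.N929.OM.Ext

/-!
The path of the loop O(n) model on the hexagonal lattice, for all `n > 0` and all `x > 0`, in domains
which are flat near the starting point: the law of the number of steps of the path is smooth to all
orders, also given all closed loops, the configuration far from the starting point, and the signs of a
macroscopic number of faces.
-/

set_option autoImplicit false

namespace Pool.Agent.Results.MP_4960b8_pr.LoopModelLengthLaw

open scoped Classical

noncomputable section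

/-- The six directions in the triangular lattice of the faces of the hexagonal lattice, in
counterclockwise order: the faces are the points of `ℤ × ℤ`, and the neighbours of the face `f` are
`f + dir k`. -/
def dir : Fin 6 → ℤ × ℤ := ![(1, 0), (0, 1), (-1, 1), (-1, 0), (0, -1), (1, -1)]

/-- Oriented edges: `(l, k)` is the edge between the faces `l` and `l + dir k`, oriented such that
the face `l` is on its left. -/
abbrev St : Type := (ℤ × ℤ) × Fin 6

/-- The face on the right of the edge. -/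
def rt (s : St) : ℤ × ℤ := s.1 + dir s.2

/-- The face in front of the edge. -/
def front (s : St) : ℤ × ℤ := s.1 + dir (s.2 + 1)

/-- The edge has a `+` face on the left and a `-` face on the right: it belongs to a domain wall. -/
def Val (σ : ℤ × ℤ → Bool) (s : St) : Prop := σ s.1 = true ∧ σ (rt s) = false

/-- The next edge of the domain wall. -/
def step (σ : ℤ × ℤ → Bool) (s : St) : St :=
  if σ (front s) = true then (front s, s.2 - 1) else (s.1, s.2 + 1)

/-- The triangles (equilateral, with centre in the face `(0, 0)`). -/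
def Q (k : ℤ) (f : ℤ × ℤ) : Prop := f.1 ≤ k ∧ f.2 ≤ k ∧ -k ≤ f.1 + f.2

/-- The domain `V` with the boundary signs `η` is flat near the starting point: in the triangle `Q R`
the faces above the line are in `V`, those below the line are outside `V`, with the boundary signs `+`
on the left and `-` on the right. -/
def Flat (V : Finset (ℤ × ℤ)) (η : ℤ × ℤ → Bool) (R : ℕ) : Prop :=
  ∀ f, Q R f → (1 ≤ f.2 → f ∈ V) ∧ (f.2 ≤ 0 → f ∉ V ∧ η f = decide (f.1 ≤ 0))

/-- The configuration whose set of `+` faces in the domain is `S`. -/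
def cfg (V : Finset (ℤ × ℤ)) (η : ℤ × ℤ → Bool) (S : Finset (ℤ × ℤ)) (f : ℤ × ℤ) : Bool :=
  if f ∈ V then decide (f ∈ S) else η f

/-- The edge by which the path enters. -/
def start : St := ((0, 0), 0)

/-- The path after `i` steps. -/
def pt (σ : ℤ × ℤ → Bool) (i : ℕ) : St := (step σ)^[i] start

/-- An edge of the domain: at least one of its two faces is in `V`. -/
def Inn (V : Finset (ℤ × ℤ)) (s : St) : Prop := s.1 ∈ V ∨ rt s ∈ V

/-- The number of edges of the path in the domain. -/
def len (V : Finset (ℤ × ℤ)) (σ : ℤ × ℤ → Bool) : ℕ := sInf {i | ¬ Inn V (pt σ (i + 1))}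

/-- The number of all edges of domain walls in the domain. -/
def edg (V : Finset (ℤ × ℤ)) (σ : ℤ × ℤ → Bool) : ℕ := Set.ncard {s : St | Val σ s ∧ Inn V s}

/-- The closed loops in the domain, as sets of oriented edges. -/
def loops (V : Finset (ℤ × ℤ)) (σ : ℤ × ℤ → Bool) : Set (Set St) :=
  {O | ∃ s, Val σ s ∧ (∃ i, 1 ≤ i ∧ (step σ)^[i] s = s) ∧ O = {t | ∃ i, (step σ)^[i] s = t} ∧
    ∀ t ∈ O, Inn V t}

/-- The weight `x ^ (number of edges) * n ^ (number of loops)`. -/
def wt (V : Finset (ℤ × ℤ)) (n x : ℝ) (σ : ℤ × ℤ → Bool) : ℝ :=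
  x ^ edg V σ * n ^ (loops V σ).ncard

/-- The mean value of `F` in the loop O(n) model in `V` with boundary signs `η`; a configuration is
given by its set `S` of `+` faces in `V`. -/
def mean (V : Finset (ℤ × ℤ)) (η : ℤ × ℤ → Bool) (n x : ℝ) (F : Finset (ℤ × ℤ) → ℝ) : ℝ :=
  (∑ S ∈ V.powerset, wt V n x (cfg V η S) * F S) / ∑ S ∈ V.powerset, wt V n x (cfg V η S)

/-- `F` does not change if the sign of one face in the triangle `Q R`, not in `P`, is changed in such
a way that the set of the loops stays the same. -/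
def Inv (V : Finset (ℤ × ℤ)) (η : ℤ × ℤ → Bool) (R : ℕ) (P : Finset (ℤ × ℤ))
    (F : Finset (ℤ × ℤ) → ℝ) : Prop :=
  ∀ S S' : Finset (ℤ × ℤ), S ⊆ V → S' ⊆ V → ∀ f, Q R f → f ∉ P →
    (∀ g, g ≠ f → (g ∈ S ↔ g ∈ S')) → loops V (cfg V η S) = loops V (cfg V η S') → F S = F S'

theorem cos_diff (t s : ℝ) (r n : ℕ) :
    Pool.Agent.N929.EG.Seq.D 2 r (fun n => Real.cos (t * n + s)) n =
      (2 * Real.sin t) ^ r * Real.cos (t * n + (s + r * (t - Real.pi / 2))) := by
  induction r generalizing n with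
  | zero => simp [Pool.Agent.N929.EG.Seq.D_zero]
  | succ r ih =>
    rw [Pool.Agent.N929.EG.Seq.D_succ, ih, ih, ← mul_sub, pow_succ, mul_assoc]
    congr 1
    obtain ⟨A, hA⟩ : ∃ A : ℝ, A = t * n + s + r * (t - Real.pi / 2) := ⟨_, rfl⟩
    have e1 : t * (n : ℝ) + (s + r * (t - Real.pi / 2)) = A := by rw [hA]; ring
    have e2 : t * ((n + 2 : ℕ) : ℝ) + (s + r * (t - Real.pi / 2)) = A + 2 * t := by
      rw [hA]
      push_cast
      ring
    have e3 : t * (n : ℝ) + (s + ((r + 1 : ℕ) : ℝ) * (t - Real.pi / 2)) =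
        (A + t) - Real.pi / 2 := by
      rw [hA]
      push_cast
      ring
    rw [e1, e2, e3, Real.cos_sub_pi_div_two, Real.cos_sub_cos]
    have e4 : (A + (A + 2 * t)) / 2 = A + t := by ring
    have e5 : (A - (A + 2 * t)) / 2 = -t := by ring
    rw [e4, e5, Real.sin_neg]
    ring

/-- The main estimate, for the mean values. -/
theorem main (n x : ℝ) (hn : 0 < n) (hx : 0 < x) (r : ℕ) : ∃ B : ℝ, 0 < B ∧
    ∀ (V : Finset (ℤ × ℤ)) (η : ℤ × ℤ → Bool) (R : ℕ), 1 ≤ R → Flat V η R →
      ∀ (P : Finset (ℤ × ℤ)) (F : Finset (ℤ × ℤ) → ℝ), B * P.card ≤ R →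
        (∀ S, 0 ≤ F S ∧ F S ≤ 1) → Inv V η R P F → ∀ g : ℕ → ℝ, (∀ m, |g m| ≤ 1) →
          |mean V η n x (fun S => F S *
            Pool.Agent.N929.EG.Seq.D 2 r g (len V (cfg V η S)))| ≤
            B * (mean V η n x F / Real.sqrt R ^ r + Real.exp (-((R : ℝ) / B))) := by
  obtain ⟨B, hB, h⟩ := Pool.Agent.N929.OM.fin_all n x hn hx r
  refine ⟨B, hB, ?_⟩
  intro V η R hR hfl P F hP hF hI g hg
  have hZ : 0 < ∑ S ∈ V.powerset, wt V n x (cfg V η S) := by
    refine Finset.sum_pos (fun S _ => ?_) ⟨∅, Finset.empty_mem_powerset V⟩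
    unfold wt
    positivity
  have h1 : |∑ S ∈ V.powerset, wt V n x (cfg V η S) *
      (F S * Pool.Agent.N929.EG.Seq.D 2 r g (len V (cfg V η S)))| ≤
      B * ((∑ S ∈ V.powerset, wt V n x (cfg V η S) * F S) / Real.sqrt R ^ r +
        Real.exp (-((R : ℝ) / B)) * ∑ S ∈ V.powerset, wt V n x (cfg V η S)) :=
    h V η R hR hfl P F hP hF hI g hg
  unfold mean
  obtain ⟨Z, hZe⟩ : ∃ Z, Z = ∑ S ∈ V.powerset, wt V n x (cfg V η S) := ⟨_, rfl⟩
  rw [← hZe] at hZ h1 ⊢
  rw [abs_div, abs_of_pos hZ, div_le_iff₀ hZ]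
  refine h1.trans (le_of_eq ?_)
  have hR0 : (0 : ℝ) < R := by exact_mod_cast hR
  have hs : Real.sqrt R ^ r ≠ 0 := by positivity
  field_simp

/-- **Theorem.** For all `n > 0`, `x > 0` and `r` there is a constant `B` such that, for every finite
set `V` of faces and all boundary signs `η` which are flat in the triangle `Q R`, `R ≥ 1`, the loop
O(n) model with parameter `x` in `V` satisfies: (0) in all configurations there are finitely many edges
and loops in the domain, and the path which starts in the face `(0, 0)` leaves the domain, after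
`l ≥ R` edges; moreover for every set `P` of at most `R / B` faces and every functional `F` of the
configuration with values in `[0,1]` which is invariant (for example: a function of the set of all
loops, of the configuration outside the triangle `Q R` and of the signs of the faces in `P`):
(1) `|∑_i (-1)^i (r choose i) E [F g(l + 2 i)]| ≤ B (E [F] R ^ (-r/2) + exp (-R / B))` for all
functions `g` with values in `[-1,1]`;
(2) `|∑_i (-1)^i (r choose i) E [F; l + 2 i = k]| ≤ B (E [F] R ^ (-(r+1)/2) + exp (-R / B))` for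
all `k`;
(3) `|2 sin t|^r |E [F cos (t l + s)]| ≤ B (E [F] R ^ (-r/2) + exp (-R / B))` for all real `t`
and `s`. -/
theorem result (n x : ℝ) (hn : 0 < n) (hx : 0 < x) (r : ℕ) : ∃ B : ℝ, 0 < B ∧
    ∀ (V : Finset (ℤ × ℤ)) (η : ℤ × ℤ → Bool) (R : ℕ), 1 ≤ R → Flat V η R →
      (∀ S ⊆ V, {s : St | Val (cfg V η S) s ∧ Inn V s}.Finite ∧ (loops V (cfg V η S)).Finite ∧
        0 < wt V n x (cfg V η S) ∧ (∃ i, ¬ Inn V (pt (cfg V η S) (i + 1))) ∧
        R ≤ len V (cfg V η S)) ∧
      ∀ (P : Finset (ℤ × ℤ)) (F : Finset (ℤ × ℤ) → ℝ), B * P.card ≤ R →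
        (∀ S, 0 ≤ F S ∧ F S ≤ 1) → Inv V η R P F →
        (∀ g : ℕ → ℝ, (∀ m, |g m| ≤ 1) →
          |∑ i ∈ Finset.range (r + 1), (-1 : ℝ) ^ i * (r.choose i : ℝ) *
            mean V η n x (fun S => F S * g (len V (cfg V η S) + 2 * i))| ≤
            B * (mean V η n x F / Real.sqrt R ^ r + Real.exp (-((R : ℝ) / B)))) ∧
        (∀ k : ℕ, |∑ i ∈ Finset.range (r + 1), (-1 : ℝ) ^ i * (r.choose i : ℝ) *
            mean V η n x (fun S => F S * if len V (cfg V η S) + 2 * i = k then 1 else 0)| ≤
            B * (mean V η n x F / Real.sqrt R ^ (r + 1) + Real.exp (-((R : ℝ) / B)))) ∧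
        ∀ t s : ℝ, |2 * Real.sin t| ^ r *
            |mean V η n x (fun S => F S * Real.cos (t * len V (cfg V η S) + s))| ≤
            B * (mean V η n x F / Real.sqrt R ^ r + Real.exp (-((R : ℝ) / B))) := by
  obtain ⟨B1, hB1, h1⟩ := main n x hn hx r
  obtain ⟨B2, hB2, h2⟩ := main n x hn hx (r + 1)
  have hB : 0 < max B1 B2 := lt_max_of_lt_left hB1
  refine ⟨max B1 B2, hB, ?_⟩
  intro V η R hR hfl
  have hR0 : (0 : ℝ) < R := by exact_mod_cast hR
  refine ⟨fun S hS => ⟨?_, ?_, ?_, ?_, ?_⟩, ?_⟩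
  · exact (Pool.Agent.N929.OM.fin_inn V).subset fun s hs => hs.2
  · obtain ⟨κ, -, hκ⟩ := Pool.Agent.N929.OM.fe_all n x hn hx
    exact (hκ V (cfg V η S)).1
  · unfold wt
    positivity
  · exact (Pool.Agent.N929.OM.exit_all V η (cfg V η S) R hR hfl
      (Pool.Agent.N929.OM.bdy_cfg _ _ _)).2.2.1
  · exact Pool.Agent.N929.OM.len_ge hR hfl S
  intro P F hP hF hI
  have hP1 : B1 * (P.card : ℝ) ≤ R :=
    (mul_le_mul_of_nonneg_right (le_max_left _ _) (Nat.cast_nonneg _)).trans hP
  have hP2 : B2 * (P.card : ℝ) ≤ R :=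
    (mul_le_mul_of_nonneg_right (le_max_right _ _) (Nat.cast_nonneg _)).trans hP
  have hZ : 0 < ∑ S ∈ V.powerset, wt V n x (cfg V η S) := by
    refine Finset.sum_pos (fun S _ => ?_) ⟨∅, Finset.empty_mem_powerset V⟩
    unfold wt
    positivity
  have hm : 0 ≤ mean V η n x F := by
    unfold mean
    refine div_nonneg (Finset.sum_nonneg fun S _ => mul_nonneg ?_ (hF S).1) hZ.le
    unfold wt
    positivity
  have mono : ∀ (B : ℝ) (a : ℝ), 0 < B → B ≤ max B1 B2 → 0 ≤ a →
      B * (a + Real.exp (-((R : ℝ) / B))) ≤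
        max B1 B2 * (a + Real.exp (-((R : ℝ) / max B1 B2))) := by
    intro B a hB' hBm ha
    refine mul_le_mul hBm ?_ (by positivity) hB.le
    have h3 : (R : ℝ) / max B1 B2 ≤ R / B := div_le_div_of_nonneg_left hR0.le hB' hBm
    have h4 : Real.exp (-((R : ℝ) / B)) ≤ Real.exp (-((R : ℝ) / max B1 B2)) :=
      Real.exp_le_exp.mpr (by linarith)
    linarith
  -- differences of the mean value
  have key : ∀ (r : ℕ) (g : ℕ → ℝ), ∑ i ∈ Finset.range (r + 1), (-1 : ℝ) ^ i * (r.choose i : ℝ) *
      mean V η n x (fun S => F S * g (len V (cfg V η S) + 2 * i)) =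
      mean V η n x (fun S => F S *
        Pool.Agent.N929.EG.Seq.D 2 r g (len V (cfg V η S))) := by
    intro r g
    unfold mean
    simp_rw [← mul_div_assoc]
    rw [← Finset.sum_div]
    congr 1
    unfold Pool.Agent.N929.EG.Seq.D
    simp_rw [Finset.mul_sum]
    rw [Finset.sum_comm]
    refine Finset.sum_congr rfl fun l _ => Finset.sum_congr rfl fun i _ => ?_
    ring
  have main1 : ∀ g : ℕ → ℝ, (∀ m, |g m| ≤ 1) →
      |mean V η n x (fun S => F S *
        Pool.Agent.N929.EG.Seq.D 2 r g (len V (cfg V η S)))| ≤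
        max B1 B2 * (mean V η n x F / Real.sqrt R ^ r +
          Real.exp (-((R : ℝ) / max B1 B2))) := by
    intro g hg
    exact (h1 V η R hR hfl P F hP1 hF hI g hg).trans
      (mono B1 _ hB1 (le_max_left _ _) (div_nonneg hm (by positivity)))
  have main2 : ∀ g : ℕ → ℝ, (∀ m, |g m| ≤ 1) →
      |mean V η n x (fun S => F S *
        Pool.Agent.N929.EG.Seq.D 2 (r + 1) g (len V (cfg V η S)))| ≤
        max B1 B2 * (mean V η n x F / Real.sqrt R ^ (r + 1) +
          Real.exp (-((R : ℝ) / max B1 B2))) := by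
    intro g hg
    exact (h2 V η R hR hfl P F hP2 hF hI g hg).trans
      (mono B2 _ hB2 (le_max_right _ _) (div_nonneg hm (by positivity)))
  refine ⟨fun g hg => ?_, fun k => ?_, fun t s => ?_⟩
  · rw [key]
    exact main1 g hg
  · obtain ⟨g, hg⟩ : ∃ g : ℕ → ℝ, g = fun n => if k + 2 ≤ n ∧ n % 2 = k % 2 then (-1 : ℝ) else 0 :=
      ⟨_, rfl⟩
    have e1 : Pool.Agent.N929.EG.Seq.D 2 1 g = fun n => if n = k then (1 : ℝ) else 0 := by
      funext n
      rw [Pool.Agent.N929.EG.Seq.D_one, hg]
      simp only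
      by_cases h7 : n = k
      · subst h7
        rw [if_neg (by omega), if_pos (by omega), if_pos rfl]
        norm_num
      · rw [if_neg h7]
        by_cases h8 : k + 2 ≤ n ∧ n % 2 = k % 2
        · rw [if_pos h8, if_pos (by omega)]
          norm_num
        · rw [if_neg h8, if_neg (by omega)]
          norm_num
    have h3 := main2 g (fun n => by
      rw [hg]
      simp only
      split_ifs <;> norm_num)
    have e2 : ∀ n, Pool.Agent.N929.EG.Seq.D 2 (r + 1) g n =
        Pool.Agent.N929.EG.Seq.D 2 r (fun n => if n = k then (1 : ℝ) else 0) n := by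
      intro n
      rw [← e1, Pool.Agent.N929.EG.Seq.D_D]
    simp only [e2] at h3
    rw [← key] at h3
    exact h3
  · have h3 := main1 (fun n => Real.cos (t * n + (s - r * (t - Real.pi / 2))))
      (fun n => Real.abs_cos_le_one _)
    have e1 : ∀ S : Finset (ℤ × ℤ), F S * Pool.Agent.N929.EG.Seq.D 2 r
        (fun n => Real.cos (t * n + (s - r * (t - Real.pi / 2)))) (len V (cfg V η S)) =
        (2 * Real.sin t) ^ r * (F S * Real.cos (t * len V (cfg V η S) + s)) := by
      intro S
      rw [cos_diff]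
      have e2 : s - r * (t - Real.pi / 2) + r * (t - Real.pi / 2) = s := by ring
      rw [e2]
      ring
    have e2 : mean V η n x (fun S => (2 * Real.sin t) ^ r *
          (F S * Real.cos (t * len V (cfg V η S) + s))) =
        (2 * Real.sin t) ^ r *
          mean V η n x (fun S => F S * Real.cos (t * len V (cfg V η S) + s)) := by
      unfold mean
      rw [← mul_div_assoc, Finset.mul_sum]
      congr 1
      refine Finset.sum_congr rfl fun l _ => ?_
      ring
    simp only [e1] at h3
    rw [e2, abs_mul, abs_pow] at h3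
    exact h3

end

end Pool.Agent.Results.MP_4960b8_pr.LoopModelLengthLaw
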